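import Pool.Agent.Helper26.Eul.Moves

/-!
# Synchronization of `k`-sets in Eulerian automata

A word is a list of functions `Fin n → Fin n`, the first letter acts first.
-/

namespace Pool.Agent.Results.MP_a3a126_co.EulerianAutomata

open Finset Helper41.Circ

/-- `Ω` is Eulerian: the number of incoming transitions of every state is `|Ω|` -/
def Eulerian {n : ℕ} (Ω : Finset (Fin n → Fin n)) : Prop :=
  ∀ y : Fin n, ∑ f ∈ Ω, (univ.filter fun x => f x = y).card = Ω.card

/-- `p` is a probability law on `Ω` for which the expected number of preimages of every state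
is `1` -/
def Balanced {n : ℕ} (Ω : Finset (Fin n → Fin n)) (p : (Fin n → Fin n) → ℝ) : Prop :=
  (∀ f ∈ Ω, 0 ≤ p f) ∧ ∑ f ∈ Ω, p f = 1 ∧
    ∀ y : Fin n, ∑ f ∈ Ω, p f * ((univ.filter fun x => f x = y).card : ℝ) = 1

/-- a word over `Ω` of length at most `c n²` sends at least `j + 1` states of `T` to one state -/
def Merges {n : ℕ} (Ω : Finset (Fin n → Fin n)) (T : Finset (Fin n)) (j : ℕ) (c : ℝ) : Prop :=
  ∃ w : List (Fin n → Fin n), Over Ω w ∧ (w.length : ℝ) ≤ c * (n : ℝ) ^ 2 ∧
    ∃ q, j + 1 ≤ (T.filter fun x => act w x = q).card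

open Helper26.Eul in
private theorem sum_mv {n : ℕ} (Ω : Finset (Fin n → Fin n)) (p : (Fin n → Fin n) → ℝ)
    (x : Fin n) : ∑ f ∈ Ω, p f * mv f x = ∑ f ∈ Ω.filter (fun f => f x ≠ x), p f := by
  classical
  rw [sum_filter]
  refine sum_congr rfl fun f _ => ?_
  unfold mv
  by_cases hf : f x = x <;> simp [hf]

/-- Let `Ω` be a synchronizing automaton on `n` states, `T` a set of states, `j < |T|`.
(1) If `Ω` is Eulerian, a word of length at most `(1 - (1 - j/|T|)² / (8 |Ω|)) n²` sends at least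
`j + 1` states of `T` to one state.  (2) If moreover every state is moved by at most `D` of the
functions, `8 |Ω|` can be replaced by `54 |T| D`.  (3) Let `p > 0` and `p' ≥ 0` be balanced laws on
`Ω` such that every proper non-empty set of states has outflow at least `1/κ` for `p'`: then (1)
holds with `κ` in place of `|Ω|`, and with `54 |T| μ` in place of `8 |Ω|` if every state is moved
with `p'`-probability at most `μ/κ`. -/
theorem result (n : ℕ) (Ω : Finset (Fin n → Fin n)) (hΩ : Sync Ω) (T : Finset (Fin n)) (j : ℕ)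
    (hj : j < T.card) :
    (Eulerian Ω → Merges Ω T j (1 - (1 - (j : ℝ) / T.card) ^ 2 / (8 * Ω.card))) ∧
    (∀ D : ℕ, Eulerian Ω → (∀ x : Fin n, (Ω.filter fun f => f x ≠ x).card ≤ D) →
      Merges Ω T j (1 - (1 - (j : ℝ) / T.card) ^ 2 / (54 * T.card * D))) ∧
    (∀ (p p' : (Fin n → Fin n) → ℝ) (κ : ℝ), 1 ≤ κ → Balanced Ω p → (∀ f ∈ Ω, 0 < p f) →
      Balanced Ω p' → (∀ L : Finset (Fin n), L.Nonempty → L ≠ univ →
        1 ≤ κ * ∑ f ∈ Ω, p' f * ((L.filter fun x => f x ∉ L).card : ℝ)) →
      Merges Ω T j (1 - (1 - (j : ℝ) / T.card) ^ 2 / (8 * κ)) ∧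
      ∀ μ : ℝ, 1 ≤ μ → (∀ x : Fin n, κ * ∑ f ∈ Ω.filter (fun f => f x ≠ x), p' f ≤ μ) →
        Merges Ω T j (1 - (1 - (j : ℝ) / T.card) ^ 2 / (54 * T.card * μ))) := by
  classical
  obtain ⟨t, ht, q, htq⟩ := hΩ
  -- at most one state: the empty word
  have htriv : ∀ c : ℝ, 0 ≤ c → (∀ x y : Fin n, x = y) → Merges Ω T j c := by
    intro c hc hsub
    refine ⟨[], fun f hf => by simp at hf, ?_, q, ?_⟩
    · simp only [List.length_nil, Nat.cast_zero]
      positivity
    · have : (T.filter fun x => act [] x = q) = T := by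
        ext x
        simp only [mem_filter, and_iff_left_iff_imp]
        intro _
        exact hsub _ _
      rw [this]
      exact hj
  have hfix : (∀ f ∈ Ω, ∀ x, f x = x) → ∀ x y : Fin n, x = y := by
    intro hf
    have h1 : ∀ (u : List (Fin n → Fin n)), Over Ω u → ∀ x, act u x = x := by
      intro u
      induction u with
      | nil => intro _ x; rfl
      | cons a u ih =>
        intro hu x
        have h2 : act u (a x) = a x := ih (fun g hg => hu g (by simp [hg])) (a x)
        have h3 := hf a (hu a (by simp)) x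
        calc act (a :: u) x = act u (a x) := rfl
          _ = x := by rw [h2, h3]
    intro x y
    have h4 := htq x
    have h5 := htq y
    rw [h1 t ht] at h4 h5
    exact h4.trans h5.symm
  have hflE : Eulerian Ω → 0 < Ω.card → Helper26.Eul.Bal Ω (fun _ => (Ω.card : ℝ)⁻¹) ∧
      ∀ L : Finset (Fin n), L.Nonempty → L ≠ univ →
        1 ≤ (Ω.card : ℝ) * Helper26.Eul.flow Ω (fun _ => (Ω.card : ℝ)⁻¹) L := by
    intro hE h0
    have hB := Helper26.Eul.bal_of_eulerian hE h0
    have hc : (0 : ℝ) < Ω.card := by exact_mod_cast h0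
    refine ⟨hB, fun L hL0 hL1 => ?_⟩
    have h1 := Helper26.Eul.flow_ge hB (c := (Ω.card : ℝ)⁻¹) (fun _ _ => le_rfl) ht htq
      hL0 hL1
    calc (1 : ℝ) = Ω.card * (Ω.card : ℝ)⁻¹ := (mul_inv_cancel₀ hc.ne').symm
      _ ≤ _ := mul_le_mul_of_nonneg_left h1 hc.le
  refine ⟨fun hE => ?_, fun D hE hD => ?_, fun p p' κ hκ hp hpos hp' hfl => ⟨?_, fun μ hμ hmv => ?_⟩⟩
  · rcases Nat.eq_zero_or_pos Ω.card with h0 | h0
    · have hΩe : Ω = ∅ := card_eq_zero.1 h0
      refine htriv _ ?_ (hfix fun f hf => by rw [hΩe] at hf; simp at hf)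
      rw [h0]
      simp
    · obtain ⟨hB, hfl⟩ := hflE hE h0
      have hc : (0 : ℝ) < Ω.card := by exact_mod_cast h0
      have hc1 : (1 : ℝ) ≤ Ω.card := by exact_mod_cast h0
      exact Helper26.Eul.main hB (fun f _ => by positivity) hB hfl hc1 ht htq hj
  · rcases Nat.eq_zero_or_pos D with hD0 | hD0
    · subst hD0
      refine htriv _ ?_ (hfix fun f hf x => ?_)
      · simp
      · by_contra hne
        have h1 := hD x
        have h2 : 0 < (Ω.filter fun f => f x ≠ x).card :=
          card_pos.2 ⟨f, mem_filter.2 ⟨hf, hne⟩⟩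
        omega
    · rcases Nat.eq_zero_or_pos Ω.card with h0 | h0
      · have hΩe : Ω = ∅ := card_eq_zero.1 h0
        refine htriv _ ?_ (hfix fun f hf => by rw [hΩe] at hf; simp at hf)
        have hT1 : (1 : ℝ) ≤ T.card := by
          have : 1 ≤ T.card := by omega
          exact_mod_cast this
        have hD1 : (1 : ℝ) ≤ D := by exact_mod_cast hD0
        have hjT : (j : ℝ) ≤ T.card := by exact_mod_cast hj.le
        have hθ0 : 0 ≤ 1 - (j : ℝ) / T.card := by
          have : (j : ℝ) / T.card ≤ 1 := by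
            rw [div_le_one (by linarith)]
            exact hjT
          linarith
        have hθ1 : 1 - (j : ℝ) / T.card ≤ 1 := by
          have : 0 ≤ (j : ℝ) / T.card := by positivity
          linarith
        have h1 : (1 - (j : ℝ) / T.card) ^ 2 ≤ 1 := pow_le_one₀ hθ0 hθ1
        have h2 : (1 : ℝ) ≤ 54 * T.card * D := by
          have : (1 : ℝ) ≤ T.card * D := one_le_mul_of_one_le_of_one_le hT1 hD1
          linarith
        have h3 : (1 - (j : ℝ) / T.card) ^ 2 / (54 * T.card * D) ≤ 1 := by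
          rw [div_le_one (by linarith)]
          linarith
        linarith
      · obtain ⟨hB, hfl⟩ := hflE hE h0
        have hc : (0 : ℝ) < Ω.card := by exact_mod_cast h0
        have hc1 : (1 : ℝ) ≤ Ω.card := by exact_mod_cast h0
        refine Helper26.Eul.main2 hB (fun f _ => by positivity) hB hfl hc1
          (by exact_mod_cast hD0) (fun x => ?_) ht htq hj
        rw [sum_mv, sum_const, nsmul_eq_mul, mul_comm, mul_assoc, inv_mul_cancel₀ hc.ne', mul_one]
        exact_mod_cast hD x
  · exact Helper26.Eul.main ⟨hp.1, hp.2.1, hp.2.2⟩ hpos ⟨hp'.1, hp'.2.1, hp'.2.2⟩ (κ := κ) hfl hκ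
      ht htq hj
  · refine Helper26.Eul.main2 ⟨hp.1, hp.2.1, hp.2.2⟩ hpos ⟨hp'.1, hp'.2.1, hp'.2.2⟩ (κ := κ) hfl hκ
      hμ (fun x => ?_) ht htq hj
    rw [sum_mv]
    exact hmv x

end Pool.Agent.Results.MP_a3a126_co.EulerianAutomata
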