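import Pool.Agent.WD.Red
import Pool.Agent.WDB.NoWorld

/-!
# Triples of states in automata of near permutations

A word is a list of functions `Fin n → Fin n`, the first letter acts first.
-/

set_option autoImplicit false

namespace Pool.Agent.Results.MP_a3a126_co.NearPermutations

open Pool.Agent.WD

/-- Every letter `f` of the automaton `Ω` agrees with a permutation, which is a product of at most
`L` letters of `Ω`, except that some of the states are sent to one common state. Then every set of
three states is sent to one state by a word of length at most `c n ^ 2 + C n`, where `c < 1` and `C`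
depend only on `L`. -/
theorem result (L : ℕ) :
    ∃ c : ℝ, c < 1 ∧ ∃ C : ℝ, ∀ (n : ℕ) (Ω : Finset (Fin n → Fin n)),
      (∀ f ∈ Ω, ∃ g : List (Fin n → Fin n), (∀ a ∈ g, a ∈ Ω) ∧ g.length ≤ L ∧
        Function.Bijective (act g) ∧ ∃ q, ∀ x, f x = act g x ∨ f x = q) →
      (∃ r : List (Fin n → Fin n), (∀ a ∈ r, a ∈ Ω) ∧ ∃ q, ∀ x, act r x = q) →
      ∀ T : Finset (Fin n), T.card = 3 →
        ∃ w : List (Fin n → Fin n), (∀ a ∈ w, a ∈ Ω) ∧ (w.length : ℝ) ≤ c * n ^ 2 + C * n ∧
          ∃ q, ∀ x ∈ T, act w x = q := by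
  have nw : NoWorld := fun K => by
    obtain ⟨e, h1, h2⟩ := Pool.Agent.WDB.no_world K
    exact ⟨e, h1, fun V _ _ ε hε w => (h2 V ε hε).false w⟩
  obtain ⟨c, hc, C, h⟩ := triple nw L
  refine ⟨c, hc, C, ?_⟩
  intro n Ω hn hs T hT
  obtain ⟨x, y, z, _, _, _, rfl⟩ := Finset.card_eq_three.1 hT
  obtain ⟨w, h1, h2, h3, h4⟩ := h (Fin n) (Ω : Set (Fin n → Fin n))
    (fun f hf => hn f hf) hs x y z
  refine ⟨w, fun a ha => h1 a ha, by simpa using h2, act w x, fun t ht => ?_⟩
  simp only [Finset.mem_insert, Finset.mem_singleton] at ht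
  rcases ht with rfl | rfl | rfl
  · rfl
  · exact h3.symm
  · exact h4.symm

end Pool.Agent.Results.MP_a3a126_co.NearPermutations
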