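import Pool.Agent.OneCl.First

/-!
# Synchronization of `k`-sets in one-cluster automata

A word is a list of functions `Fin n → Fin n`, the first letter acts first.
-/

set_option autoImplicit false

namespace Pool.Agent.Results.MP_a3a126_co.OneClusterAutomata

open Finset Helper41.Circ OneCl

/-- Let `Ω` be a synchronizing automaton on `n` states that has a one-cluster function `b`: any two
states are sent to one state by suitable powers of `b`.
(1) Every set of `k ≥ 1` states is sent to one state by a word of length at most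
`((k - 1) n² + 1) / k`, so `(2 n² + 1) / 3` for three states.
(2) There is a reset word of length at most `(n - 1)²`.
(3) Let `C` be the set of the states on the cycle of `b`, and let `b^h` send every state into `C`
(this holds for `h = n - |C|`). For every set `T` of states and every `j < |T|` a word of length
at most `⌊j |C| / |T|⌋ (n + h) + h` sends at least `j + 1` states of `T` to one state, and there is a
reset word of length at most `(|C| - 1) (n + h - 1) + h`. -/
theorem result (n : ℕ) (Ω : Finset (Fin n → Fin n)) (hΩ : Sync Ω)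
    (b : Fin n → Fin n) (hbΩ : b ∈ Ω) (hb : ∀ x y : Fin n, ∃ i j : ℕ, b^[i] x = b^[j] y) :
    (∀ T : Finset (Fin n), 0 < T.card → ∃ w : List (Fin n → Fin n), Over Ω w ∧
      T.card * w.length ≤ (T.card - 1) * n ^ 2 + 1 ∧ ∃ q, ∀ x ∈ T, act w x = q) ∧
    (∃ w : List (Fin n → Fin n), Over Ω w ∧ w.length ≤ (n - 1) ^ 2 ∧ ∃ q, ∀ x, act w x = q) ∧
    ∀ C : Finset (Fin n), (∀ x, x ∈ C ↔ ∃ i : ℕ, i > 0 ∧ b^[i] x = x) →
      (∀ x, b^[n - C.card] x ∈ C) ∧ ∀ h : ℕ, (∀ x, b^[h] x ∈ C) →
      (∀ (T : Finset (Fin n)) (j : ℕ), j < T.card → ∃ w : List (Fin n → Fin n), Over Ω w ∧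
        w.length ≤ (j * C.card / T.card) * (n + h) + h ∧
        ∃ q, j + 1 ≤ (T.filter fun x => act w x = q).card) ∧
      (∃ w : List (Fin n → Fin n), Over Ω w ∧ w.length ≤ (C.card - 1) * (n + h - 1) + h ∧
        ∃ q, ∀ x, act w x = q) := by
  classical
  obtain ⟨r, hr, q, hq⟩ := hΩ
  have hn : 0 < n := q.pos
  have hreset : ∀ h : ℕ, (∀ x, b^[h] x ∈ cyc b) → ∃ w : List (Fin n → Fin n), Over Ω w ∧
      w.length ≤ ((cyc b).card - 1) * (n + h - 1) + h ∧ ∃ q, ∀ x, act w x = q := by
    intro h hh
    obtain ⟨w, hw, hlen, p, hp⟩ := reset hb hbΩ hh hr hq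
    refine ⟨w, hw, ?_, p, hp⟩
    obtain ⟨t, ht⟩ : ∃ t, n + h = t + 1 := ⟨n + h - 1, by omega⟩
    rw [ht, Nat.mul_add, mul_one] at hlen
    have e1 : n + h - 1 = t := by omega
    rw [e1]
    omega
  have hent : ∀ x, b^[n - (cyc b).card] x ∈ cyc b := cyc_enter
  have hmn := cyc_card_le b
  have hm0 : 0 < (cyc b).card := card_pos.2 ⟨_, hent q⟩
  obtain ⟨x, hx⟩ : ∃ x, n = (cyc b).card + x := ⟨n - (cyc b).card, by omega⟩
  have hx' : n - (cyc b).card = x := by omega
  refine ⟨fun T hT => ?_, ?_, ?_⟩
  · rcases Nat.lt_or_ge 1 T.card with hT1 | hT1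
    · obtain ⟨w, hw, hlen, p, hp⟩ := main2 hb hbΩ hent hr hq T (T.card - 1) (by omega)
      refine ⟨w, hw, ?_, p, ?_⟩
      · rw [hx'] at hlen
        obtain ⟨j, hj⟩ : ∃ j, T.card = j + 2 := ⟨T.card - 2, by omega⟩
        have hj1 : T.card - 1 = j + 1 := by omega
        rw [hj1, hj] at hlen
        rw [hj1, hj]
        set m := (cyc b).card with hm
        have e1 : (j + 2) * ((j + 1) * m / (j + 2)) ≤ (j + 1) * m := Nat.mul_div_le _ _
        have e2 : (j + 2) * w.length ≤ (j + 1) * m * (n + x) + (j + 2) * x := by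
          calc (j + 2) * w.length ≤ (j + 2) * ((j + 1) * m / (j + 2) * (n + x) + x) :=
                Nat.mul_le_mul_left _ hlen
            _ = ((j + 2) * ((j + 1) * m / (j + 2))) * (n + x) + (j + 2) * x := by ring
            _ ≤ (j + 1) * m * (n + x) + (j + 2) * x := by
                have := Nat.mul_le_mul_right (n + x) e1
                omega
        have e3 : (j + 2) * x ≤ (j + 1) * x ^ 2 + 1 := by
          rcases x with _ | _ | x
          · omega
          · omega
          · have h1 : j + 2 ≤ (j + 1) * (x + 1 + 1) := by nlinarith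
            have h2 := Nat.mul_le_mul_right (x + 1 + 1) h1
            have h3 : (j + 1) * (x + 1 + 1) * (x + 1 + 1) = (j + 1) * (x + 1 + 1) ^ 2 := by ring
            omega
        have e4 : (j + 1) * m * (n + x) + (j + 1) * x ^ 2 = (j + 1) * n ^ 2 := by
          rw [hx]
          ring
        omega
      · have h1 : T.filter (fun x => act w x = p) = T := by
          refine eq_of_subset_of_card_le (filter_subset _ _) ?_
          omega
        intro x hx
        rw [← h1] at hx
        exact (mem_filter.1 hx).2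
    · obtain ⟨c, hc⟩ := card_eq_one.1 (by omega : T.card = 1)
      refine ⟨[], fun f hf => by simp at hf, by simp, c, ?_⟩
      intro x hx
      rw [hc, mem_singleton] at hx
      rw [hx]
      rfl
  · obtain ⟨w, hw, hlen, p, hp⟩ := hreset _ hent
    refine ⟨w, hw, hlen.trans ?_, p, hp⟩
    rw [hx']
    obtain ⟨s, hs⟩ : ∃ s, (cyc b).card = s + 1 := ⟨(cyc b).card - 1, by omega⟩
    rw [hs] at hx
    have e1 : n - 1 = s + x := by omega
    have e2 : n + x - 1 = s + x + x := by omega
    have e3 : (cyc b).card - 1 = s := by omega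
    rw [e3, e2, e1]
    have e4 : x ≤ x ^ 2 := by
      rcases x with _ | x
      · simp
      · nlinarith
    nlinarith
  · intro C hC
    have hCc : C = cyc b := by
      ext x
      rw [hC, mem_cyc]
    subst hCc
    refine ⟨hent, fun h hh => ⟨fun T j hj => ?_, hreset h hh⟩⟩
    exact main2 hb hbΩ hh hr hq T j hj

end Pool.Agent.Results.MP_a3a126_co.OneClusterAutomata
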