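import Pool.Agent.SYU.FinU

/-!
# Triples of states in automata whose permutation letters act transitively

A word is a list of functions `Fin n → Fin n`, the first letter acts first.
-/

set_option autoImplicit false

namespace Pool.Agent.Results.MP_a3a126_co.TransitivePermutations

open Pool.Agent.WD

/-- There are constants `c < 1` and `C` such that for every `n` and every synchronizing automaton `Ω`
on `n` states: if every state can be moved to every other state by a word consisting of permutation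
letters of `Ω`, then every set of three states is sent to one state by a word over `Ω` of length at
most `c n ^ 2 + C n`. -/
theorem result :
    ∃ c : ℝ, c < 1 ∧ ∃ C : ℝ, ∀ (n : ℕ) (Ω : Finset (Fin n → Fin n)),
      (∃ r : List (Fin n → Fin n), (∀ a ∈ r, a ∈ Ω) ∧ ∃ q, ∀ x, act r x = q) →
      (∀ x y : Fin n, ∃ u : List (Fin n → Fin n),
        (∀ a ∈ u, a ∈ Ω ∧ Function.Bijective a) ∧ act u x = y) →
      ∀ T : Finset (Fin n), T.card = 3 →
        ∃ w : List (Fin n → Fin n), (∀ a ∈ w, a ∈ Ω) ∧ (w.length : ℝ) ≤ c * n ^ 2 + C * n ∧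
          ∃ q, ∀ x ∈ T, act w x = q := by
  obtain ⟨K', n0, hK', h⟩ := Pool.Agent.SYT.triple_all
  have hK : (0 : ℝ) < K' := by exact_mod_cast hK'
  refine ⟨max (2 / 3) (1 - 1 / K'), max_lt (by norm_num) (by
    have : (0 : ℝ) < 1 / K' := by positivity
    linarith), n0 + 2, ?_⟩
  rintro n Ω hs ht T hT
  obtain ⟨x, y, z, _, _, _, rfl⟩ := Finset.card_eq_three.1 hT
  obtain ⟨w, hw1, hw2, hw3, hw4⟩ := h n Ω hs ht x y z hT
  refine ⟨w, fun a ha => hw1 a ha, ?_, act w x, fun t ht => ?_⟩
  · have hn2 : (0 : ℝ) ≤ (n : ℝ) ^ 2 := by positivity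
    have hn1 : (0 : ℝ) ≤ (n0 : ℝ) * n := by positivity
    have hn3 : (0 : ℝ) ≤ (n : ℝ) := by positivity
    have hc1 : (2 / 3 : ℝ) * n ^ 2 ≤ max (2 / 3) (1 - 1 / (K' : ℝ)) * n ^ 2 :=
      mul_le_mul_of_nonneg_right (le_max_left _ _) hn2
    have hc2 : (1 - 1 / (K' : ℝ)) * n ^ 2 ≤ max (2 / 3) (1 - 1 / (K' : ℝ)) * n ^ 2 :=
      mul_le_mul_of_nonneg_right (le_max_right _ _) hn2
    have hC : ((n0 : ℝ) + 2) * n = n0 * n + 2 * n := by ring
    rw [hC]
    rcases hw2 with h1 | h1 | h1
    · have h1' : (w.length : ℝ) ≤ n0 * n := by exact_mod_cast h1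
      have : (0 : ℝ) ≤ 2 / 3 * n ^ 2 := by positivity
      linarith
    · have h1' : 3 * (w.length : ℝ) ≤ 2 * n ^ 2 + 5 * n := by exact_mod_cast h1
      linarith
    · have h1' : (K' : ℝ) * w.length + n ^ 2 ≤ K' * n ^ 2 := by exact_mod_cast h1
      have h2 : (w.length : ℝ) ≤ (1 - 1 / (K' : ℝ)) * n ^ 2 := by
        have h3 : (K' : ℝ) * w.length ≤ K' * ((1 - 1 / (K' : ℝ)) * n ^ 2) := by
          have h4 : (K' : ℝ) * ((1 - 1 / (K' : ℝ)) * n ^ 2) = K' * n ^ 2 - n ^ 2 := by
            field_simp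
          linarith
        exact le_of_mul_le_mul_left h3 hK
      linarith
  · simp only [Finset.mem_insert, Finset.mem_singleton] at ht
    rcases ht with rfl | rfl | rfl
    · rfl
    · exact hw3.symm
    · exact hw4.symm

end Pool.Agent.Results.MP_a3a126_co.TransitivePermutations
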